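import Mathlib

/-!
Random fields with finitely many values on the vertices of a graph: definitions.
-/

set_option autoImplicit false

namespace Pool.Agent.KS6_99.FD

open MeasureTheory ProbabilityTheory

variable {V : Type} {q : ℕ}

/-- The `σ`-algebra generated by the values at the vertices of `A`. A random field on the vertex
set `V` with values in `{0, …, q - 1}` is given by its law, a probability measure on the
configurations `V → Fin q`. -/
def sg (q : ℕ) (A : Set V) : MeasurableSpace (V → Fin q) :=
  MeasurableSpace.comap (fun (x : V → Fin q) (v : A) => x v) MeasurableSpace.pi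

/-- The outer boundary of `A` in the graph `H`. -/
def bd (H : SimpleGraph V) (A : Set V) : Set V := {v | v ∉ A ∧ ∃ u ∈ A, H.Adj u v}

/-- The law is invariant under the permutation `φ` of the vertices. -/
def Inv (P : Measure (V → Fin q)) (φ : Equiv.Perm V) : Prop :=
  P.map (fun (x : V → Fin q) (v : V) => x (φ v)) = P

/-- Finitely dependent, for the graph distance of `G`: for some `k`, the families of the values on
two sets of vertices at distance at least `k` are independent. -/
def FinDep (G : SimpleGraph V) (P : Measure (V → Fin q)) : Prop :=
  ∃ k : ℕ, ∀ A B : Set V, (∀ a ∈ A, ∀ b ∈ B, (k : ℕ∞) ≤ G.edist a b) →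
    Indep (sg q A) (sg q B) P

/-- Markov random field, for the graph `H`: for every finite set `A` of vertices, the conditional
law of the values on `A` given the values outside `A` is almost surely the conditional law given
the values on the boundary of `A`. -/
def Markov (H : SimpleGraph V) (P : Measure (V → Fin q)) : Prop :=
  ∀ (A : Finset V) (E : Set (V → Fin q)), MeasurableSet[sg q (A : Set V)] E →
    P[E.indicator (fun _ => (1 : ℝ)) | sg q (A : Set V)ᶜ] =ᵐ[P]
      P[E.indicator (fun _ => (1 : ℝ)) | sg q (bd H (A : Set V))]

/-- The support: the configurations all of whose restrictions to finite sets have positive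
probability. -/
def Supp (P : Measure (V → Fin q)) : Set (V → Fin q) :=
  {x | ∀ B : Finset V, 0 < P {y | ∀ v ∈ B, y v = x v}}

/-- `φ` is an automorphism of the graph `G`. -/
def Aut (G : SimpleGraph V) (φ : Equiv.Perm V) : Prop := ∀ u v, G.Adj (φ u) (φ v) ↔ G.Adj u v

/-- The orbit of `v` under `φ` is infinite. -/
def Free (φ : Equiv.Perm V) (v : V) : Prop := ∀ n : ℤ, (φ ^ n) v = v → n = 0

/-- All degrees are finite. -/
def LocFin (G : SimpleGraph V) : Prop := ∀ v, (G.neighborSet v).Finite

/-- The configuration is a proper colouring of the graph `G`. -/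
def Proper (G : SimpleGraph V) (x : V → Fin q) : Prop := ∀ u v, G.Adj u v → x u ≠ x v

/-- The graph `ℤ^d`: two points are adjacent when their Euclidean distance is `1`. -/
def lat (d : ℕ) : SimpleGraph (Fin d → ℤ) where
  Adj u v := ∑ i, (u i - v i) ^ 2 = 1
  symm := ⟨fun u v h => by
    rw [← h]; exact Finset.sum_congr rfl (fun i _ => by ring)⟩
  loopless := ⟨fun u h => by simp at h⟩

end Pool.Agent.KS6_99.FD
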