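import Mathlib
import Pool.Agent.KS6_99.FD.Defs

/-!
Events of random fields.
-/

set_option autoImplicit false

namespace Pool.Agent.KS6_99.FD

open MeasureTheory ProbabilityTheory

variable {V : Type} {q : ℕ}

theorem sg_le (A : Set V) : sg q A ≤ MeasurableSpace.pi := by
  unfold sg
  apply Measurable.comap_le
  exact measurable_pi_lambda _ fun v => measurable_pi_apply _

theorem sg_mono {A B : Set V} (h : A ⊆ B) : sg q A ≤ sg q B := by
  unfold sg
  rintro _ ⟨E, hE, rfl⟩
  refine ⟨(fun (y : B → Fin q) (v : A) => y ⟨v, h v.2⟩) ⁻¹' E, ?_, rfl⟩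
  exact (measurable_pi_lambda _ fun v => measurable_pi_apply _) hE

theorem meas_coord {A : Set V} {v : V} (hv : v ∈ A) :
    Measurable[sg q A] (fun x : V → Fin q => x v) := by
  intro E hE
  exact ⟨(fun y : A → Fin q => y ⟨v, hv⟩) ⁻¹' E, (measurable_pi_apply (⟨v, hv⟩ : A)) hE, rfl⟩

/-- the event that the values on `B` are those of `s` -/
def cyl (B : Set V) (s : V → Fin q) : Set (V → Fin q) := {x | ∀ v ∈ B, x v = s v}

theorem meas_cyl {A B : Set V} (h : B ⊆ A) (hB : B.Finite) (s : V → Fin q) :
    MeasurableSet[sg q A] (cyl B s) := by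
  have : cyl B s = ⋂ v ∈ B, {x : V → Fin q | x v = s v} := by
    ext x
    simp [cyl]
  rw [this]
  exact MeasurableSet.biInter hB.countable
    fun v hv => meas_coord (h hv) (MeasurableSet.singleton (s v))

/-- an event which is measurable with respect to the values on `B` depends only on them -/
theorem mem_congr {B : Set V} {E : Set (V → Fin q)} (hE : MeasurableSet[sg q B] E)
    {x y : V → Fin q} (h : ∀ v ∈ B, x v = y v) : x ∈ E ↔ y ∈ E := by
  obtain ⟨E', _, rfl⟩ := hE
  have h2 : (fun (v : B) => x v) = fun (v : B) => y v := funext fun v => h v v.2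
  show (fun (v : B) => x v) ∈ E' ↔ (fun (v : B) => y v) ∈ E'
  rw [h2]

/-- a function which is measurable with respect to the values on `B` is constant on `cyl B s` -/
theorem const_cyl {B : Set V} {g : (V → Fin q) → ℝ} (hg : Measurable[sg q B] g)
    {s x : V → Fin q} (hx : x ∈ cyl B s) : g x = g s := by
  have h1 := mem_congr (hg (MeasurableSet.singleton (g s))) hx
  exact h1.2 rfl

theorem markov_event {H : SimpleGraph V} {P : Measure (V → Fin q)} [IsProbabilityMeasure P]
    (hP : Markov H P) (A : Finset V) {S : Set V} (hS : S.Finite) (hSA : ∀ v ∈ S, v ∉ A)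
    (hbd : (bd H (A : Set V)).Finite)
    {E F : Set (V → Fin q)} (hE : MeasurableSet[sg q ((A : Set V) ∪ S)] E)
    (hF : MeasurableSet[sg q (A : Set V)ᶜ] F) (s : V → Fin q) :
    P.real (E ∩ (F ∩ cyl (bd H (A : Set V) ∪ S) s)) * P.real (cyl (bd H (A : Set V) ∪ S) s) =
      P.real (E ∩ cyl (bd H (A : Set V) ∪ S) s) *
        P.real (F ∩ cyl (bd H (A : Set V) ∪ S) s) := by
  classical
  set B : Set V := bd H (A : Set V) with hB
  set C : Set (V → Fin q) := cyl (B ∪ S) s with hC
  set E' : Set (V → Fin q) := {x | (fun v => if v ∈ A then x v else s v) ∈ E} with hE'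
  have hEC : E ∩ C = E' ∩ C := by
    ext x
    constructor
    · rintro ⟨h1, h2⟩
      refine ⟨?_, h2⟩
      refine (mem_congr hE ?_).1 h1
      rintro v (hv | hv)
      · rw [if_pos (Finset.mem_coe.1 hv)]
      · rw [if_neg (hSA v hv)]
        exact h2 v (Or.inr hv)
    · rintro ⟨h1, h2⟩
      refine ⟨?_, h2⟩
      refine (mem_congr hE ?_).2 h1
      rintro v (hv | hv)
      · rw [if_pos (Finset.mem_coe.1 hv)]
      · rw [if_neg (hSA v hv)]
        exact h2 v (Or.inr hv)
  have hEm' : MeasurableSet[sg q (A : Set V)] E' := by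
    have h1 : Measurable[sg q (A : Set V)]
        (fun (x : V → Fin q) (v : V) => if v ∈ A then x v else s v) := by
      refine @measurable_pi_lambda _ _ _ (sg q (A : Set V)) _ _ fun v => ?_
      by_cases hv : v ∈ A
      · simp only [if_pos hv]
        exact meas_coord (Finset.mem_coe.2 hv)
      · simp only [if_neg hv]
        exact measurable_const
    exact h1 (sg_le _ _ hE)
  have hBA : B ⊆ (A : Set V)ᶜ := fun v hv => hv.1
  have hCA : B ∪ S ⊆ (A : Set V)ᶜ := Set.union_subset hBA fun v hv => hSA v hv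
  have hC2 : MeasurableSet[sg q (A : Set V)ᶜ] C := meas_cyl hCA (hbd.union hS) s
  have hEm : MeasurableSet E' := sg_le _ _ hEm'
  have hFm : MeasurableSet F := sg_le _ _ hF
  have hCm : MeasurableSet C := sg_le _ _ hC2
  have hint : Integrable (E'.indicator (fun _ => (1 : ℝ))) P :=
    (integrable_const (1 : ℝ)).indicator hEm
  set g := P[E'.indicator (fun _ => (1 : ℝ)) | sg q B] with hg
  have hgm : Measurable[sg q B] g := stronglyMeasurable_condExp.measurable
  have key : ∀ G : Set (V → Fin q), MeasurableSet[sg q (A : Set V)ᶜ] G →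
      P.real (E' ∩ (G ∩ C)) = g s * P.real (G ∩ C) := by
    intro G hG
    have hGm : MeasurableSet G := sg_le _ _ hG
    have h1 : ∫ x in G ∩ C, g x ∂P = ∫ x in G ∩ C, g s ∂P :=
      setIntegral_congr_fun (hGm.inter hCm) fun x hx =>
        const_cyl hgm fun v hv => hx.2 v (Or.inl hv)
    have h2 : ∫ x in G ∩ C, g x ∂P =
        ∫ x in G ∩ C, (P[E'.indicator (fun _ => (1 : ℝ)) | sg q (A : Set V)ᶜ]) x ∂P := by
      refine setIntegral_congr_ae (hGm.inter hCm) ?_
      filter_upwards [hP A E' hEm'] with x hx _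
      exact hx.symm
    rw [setIntegral_condExp (sg_le _) hint (hG.inter hC2), setIntegral_indicator hEm,
      setIntegral_const, smul_eq_mul, mul_one, Set.inter_comm (G ∩ C) E'] at h2
    rw [← h2, h1, setIntegral_const, smul_eq_mul, mul_comm]
  have h1 : P.real (E ∩ (F ∩ C)) = g s * P.real (F ∩ C) := by
    rw [← key F hF]
    congr 1
    calc E ∩ (F ∩ C) = F ∩ (E ∩ C) := by rw [Set.inter_left_comm]
      _ = F ∩ (E' ∩ C) := by rw [hEC]
      _ = E' ∩ (F ∩ C) := by rw [Set.inter_left_comm]
  have h2 : P.real (E ∩ C) = g s * P.real C := by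
    have h3 := key Set.univ MeasurableSet.univ
    rw [Set.univ_inter] at h3
    rw [hEC, h3]
  rw [h1, h2]
  ring

/-- law of total probability -/
theorem sum_fun {P : Measure (V → Fin q)} [IsProbabilityMeasure P] {β : Type} [Fintype β]
    [MeasurableSpace β] [MeasurableSingletonClass β] (f : (V → Fin q) → β) (hf : Measurable f)
    (E : Set (V → Fin q)) : ∑ s, P.real (f ⁻¹' {s} ∩ E) = P.real E := by
  have h1 : ∀ s, P.real (f ⁻¹' {s} ∩ E) = (P.restrict E).real (f ⁻¹' {s}) := by
    intro s
    rw [measureReal_restrict_apply (hf (MeasurableSet.singleton s))]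
  simp_rw [h1]
  rw [sum_measureReal_preimage_singleton _ (fun y _ => hf (MeasurableSet.singleton y))]
  simp

/-- there is a pattern of positive probability -/
theorem exists_pat {P : Measure (V → Fin q)} [IsProbabilityMeasure P] (S : Finset V) :
    ∃ s : V → Fin q, 0 < P.real (cyl (S : Set V) s) := by
  classical
  have h1 := sum_fun (P := P) (fun (x : V → Fin q) (v : S) => x v)
    (measurable_pi_lambda _ fun v => measurable_pi_apply _) Set.univ
  rw [probReal_univ] at h1
  obtain ⟨r, hr⟩ : ∃ r : S → Fin q,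
      P.real ((fun (x : V → Fin q) (v : S) => x v) ⁻¹' {r} ∩ Set.univ) ≠ 0 := by
    by_contra hcon
    push Not at hcon
    simp only [hcon, Finset.sum_const_zero] at h1
    exact zero_ne_one h1
  rw [Set.inter_univ] at hr
  have hne : ((fun (x : V → Fin q) (v : S) => x v) ⁻¹' {r}).Nonempty := by
    by_contra hcon
    rw [Set.not_nonempty_iff_eq_empty] at hcon
    rw [hcon, measureReal_empty] at hr
    exact hr rfl
  obtain ⟨s, hs⟩ := hne
  refine ⟨s, ?_⟩
  have h2 : cyl (S : Set V) s = (fun (x : V → Fin q) (v : S) => x v) ⁻¹' {r} := by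
    ext x
    constructor
    · intro hx
      have h3 : (fun v : S => x v) = fun v : S => s v := funext fun v => hx v v.2
      exact h3.trans hs
    · intro hx v hv
      exact congrFun (Eq.trans (a := fun v : S => x v) hx (Eq.symm hs)) ⟨v, hv⟩
  rw [h2]
  exact lt_of_le_of_ne measureReal_nonneg (Ne.symm hr)

end Pool.Agent.KS6_99.FD
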