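import Mathlib
import Pool.Agent.KS6_99.FD.Prob
import Pool.Agent.KS6_99.FD.Lin

/-!
The words read by a random field on the translates of a finite set of vertices.
-/

set_option autoImplicit false

namespace Pool.Agent.KS6_99.FD

open MeasureTheory ProbabilityTheory

variable {V : Type} {q : ℕ}

/-- the pattern of the configuration on the translate by `φ ^ j` of the finite set `W` -/
def rd (φ : Equiv.Perm V) (W : Finset V) (j : ℤ) (x : V → Fin q) : W → Fin q :=
  fun v => x ((φ ^ j) v)

/-- the word `w` of patterns is read from the translate by `φ ^ j` on -/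
def Ev (φ : Equiv.Perm V) (W : Finset V) : ℤ → List (W → Fin q) → Set (V → Fin q)
  | _, [] => Set.univ
  | j, c :: w => rd φ W j ⁻¹' {c} ∩ Ev φ W (j + 1) w

theorem Ev_append (φ : Equiv.Perm V) (W : Finset V) (j : ℤ) (u v : List (W → Fin q)) :
    Ev φ W j (u ++ v) = Ev φ W j u ∩ Ev φ W (j + u.length) v := by
  induction u generalizing j with
  | nil => simp [Ev]
  | cons c u ih =>
    rw [List.cons_append, Ev, ih, Ev, Set.inter_assoc, List.length_cons]
    have : j + 1 + (u.length : ℤ) = j + ((u.length + 1 : ℕ) : ℤ) := by push_cast; ring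
    rw [this]

theorem rd_meas (φ : Equiv.Perm V) (W : Finset V) (j : ℤ) {A : Set V}
    (h : ∀ v ∈ W, (φ ^ j) v ∈ A) : Measurable[sg q A] (rd (q := q) φ W j) := by
  refine @measurable_pi_lambda _ _ _ (sg q A) _ _ fun v => ?_
  exact meas_coord (h v v.2)

theorem Ev_meas (φ : Equiv.Perm V) (W : Finset V) {A : Set V} (w : List (W → Fin q)) (j : ℤ)
    (h : ∀ t : ℤ, j ≤ t → t < j + w.length → ∀ v ∈ W, (φ ^ t) v ∈ A) :
    MeasurableSet[sg q A] (Ev φ W j w) := by
  induction w generalizing j with
  | nil => exact MeasurableSet.univ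
  | cons c w ih =>
    rw [List.length_cons] at h
    push_cast at h
    refine MeasurableSet.inter (m := sg q A) ?_ (ih (j + 1) fun t h1 h2 => h t (by omega) (by omega))
    exact rd_meas φ W j (h j le_rfl (by have := Int.natCast_nonneg w.length; omega))
      (MeasurableSet.singleton c)

theorem Ev_meas' (φ : Equiv.Perm V) (W : Finset V) (w : List (W → Fin q)) (j : ℤ) :
    MeasurableSet (Ev φ W j w) :=
  sg_le Set.univ _ (Ev_meas φ W w j fun _ _ _ _ _ => Set.mem_univ _)

theorem rd_meas' (φ : Equiv.Perm V) (W : Finset V) (j : ℤ) : Measurable (rd (q := q) φ W j) :=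
  (rd_meas φ W j fun _ _ => Set.mem_univ _).mono (sg_le Set.univ) le_rfl

theorem Ev_replicate (φ : Equiv.Perm V) (W : Finset V) (c : W → Fin q) (n : ℕ) (j : ℤ) :
    Ev φ W j (List.replicate n c) = {x | ∀ t : ℕ, t < n → rd φ W (j + t) x = c} := by
  induction n generalizing j with
  | zero =>
    ext x
    simp [Ev]
  | succ n ih =>
    rw [List.replicate_succ, Ev, ih]
    ext x
    constructor
    · rintro ⟨h1, h2⟩ t ht
      rcases Nat.eq_zero_or_pos t with rfl | h0
      · simpa using h1
      · have h3 := h2 (t - 1) (by omega)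
        have h4 : j + 1 + ((t - 1 : ℕ) : ℤ) = j + t := by omega
        rwa [h4] at h3
    · intro h
      refine ⟨by simpa using h 0 (Nat.succ_pos n), fun t ht => ?_⟩
      have h3 := h (t + 1) (by omega)
      have h4 : j + ((t + 1 : ℕ) : ℤ) = j + 1 + t := by push_cast; ring
      rwa [h4] at h3

theorem Ev_shift {P : Measure (V → Fin q)} {φ : Equiv.Perm V} (hP : Inv P φ) (W : Finset V)
    (j : ℤ) (w : List (W → Fin q)) : P.real (Ev φ W (j + 1) w) = P.real (Ev φ W j w) := by
  have hm : Measurable fun (x : V → Fin q) (v : V) => x (φ v) :=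
    measurable_pi_lambda _ fun v => measurable_pi_apply _
  have h1 : (fun (x : V → Fin q) (v : V) => x (φ v)) ⁻¹' Ev φ W j w = Ev φ W (j + 1) w := by
    induction w generalizing j with
    | nil => rfl
    | cons c w ih =>
      rw [Ev, Set.preimage_inter, ih, Ev]
      congr 1
      ext x
      have h2 : rd φ W j (fun v => x (φ v)) = rd φ W (j + 1) x := by
        funext v
        show x (φ ((φ ^ j) v)) = x ((φ ^ (j + 1)) v)
        rw [add_comm j 1, zpow_add, zpow_one]
        rfl
      show rd φ W j (fun v => x (φ v)) = c ↔ rd φ W (j + 1) x = c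
      rw [h2]
  rw [← h1, ← map_measureReal_apply hm (Ev_meas' φ W w j)]
  rw [show P.map (fun (x : V → Fin q) (v : V) => x (φ v)) = P from hP]

theorem Ev_const {P : Measure (V → Fin q)} {φ : Equiv.Perm V} (hP : Inv P φ) (W : Finset V)
    (j : ℤ) (w : List (W → Fin q)) : P.real (Ev φ W j w) = P.real (Ev φ W 0 w) := by
  induction j using Int.induction_on with
  | zero => rfl
  | succ n ih => rw [Ev_shift hP, ih]
  | pred n ih =>
    have h := Ev_shift hP W (-(n : ℤ) - 1) w
    rw [sub_add_cancel] at h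
    rw [← h, ih]

/-- the probability of a word -/
noncomputable def pw (P : Measure (V → Fin q)) (φ : Equiv.Perm V) (W : Finset V)
    (w : List (W → Fin q)) : ℝ :=
  P.real (Ev φ W 0 w)

theorem Av_pow [DecidableEq V] {P : Measure (V → Fin q)} [IsProbabilityMeasure P] {φ : Equiv.Perm V}
    {W : Finset V} (m : ℕ) (u v : List (W → Fin q)) :
    ((((Av (pw P φ W)) ^ m) ⟨H (pw P φ W) u, H_mem _ u⟩ : VS (pw P φ W)) :
      List (W → Fin q) → ℝ) v = P.real (Ev φ W 0 u ∩ Ev φ W (u.length + m) v) := by
  induction m generalizing v with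
  | zero =>
    rw [pow_zero, Module.End.one_apply]
    show P.real (Ev φ W 0 (u ++ v)) = _
    rw [Ev_append]
    simp
  | succ m ih =>
    rw [pow_succ', Module.End.mul_apply, Av_apply]
    simp_rw [ih]
    rw [← sum_fun (P := P) (rd φ W (u.length + m)) (rd_meas' φ W _)]
    refine Finset.sum_congr rfl fun c _ => ?_
    rw [Ev]
    congr 1
    have : (u.length : ℤ) + m + 1 = u.length + ((m + 1 : ℕ) : ℤ) := by push_cast; ring
    rw [this, Set.inter_left_comm]

/-- The main theorem, with the finite dimension as a hypothesis. -/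
theorem words [DecidableEq V] {P : Measure (V → Fin q)} [IsProbabilityMeasure P] {φ : Equiv.Perm V}
    (hP : Inv P φ) (W : Finset V) {m : ℕ} (hm : m ≠ 0)
    (hk : ∀ u v : List (W → Fin q), P.real (Ev φ W 0 u ∩ Ev φ W (u.length + m) v) =
      pw P φ W u * pw P φ W v) (hfin : FiniteDimensional ℝ (VS (pw P φ W))) :
    ∃ c : W → Fin q, ∀ n : ℕ, 0 < P.real {x | ∀ t : ℕ, t < n → rd φ W t x = c} := by
  have g1 : ∀ v, ∑ c, pw P φ W (c :: v) = pw P φ W v := by
    intro v
    unfold pw
    simp only [Ev]
    rw [sum_fun _ (rd_meas' φ W _), Ev_const hP]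
  have g2 : ∀ u, ∑ c, pw P φ W (u ++ [c]) = pw P φ W u := by
    intro u
    unfold pw
    simp only [Ev_append, Ev, Set.inter_univ, zero_add]
    simp_rw [Set.inter_comm (Ev φ W 0 u)]
    rw [sum_fun _ (rd_meas' φ W _)]
  obtain ⟨c, hc⟩ := main (p := pw P φ W) (probReal_univ) g1 g2 hm
    (fun u v => by rw [Av_pow]; exact hk u v) hfin
  refine ⟨c, fun n => ?_⟩
  obtain ⟨u, v, huv⟩ := hc n
  have h1 : pw P φ W (u ++ (List.replicate n c ++ v)) ≤
      P.real {x | ∀ t : ℕ, t < n → rd φ W t x = c} := by
    have h2 : P.real {x : V → Fin q | ∀ t : ℕ, t < n → rd φ W t x = c} =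
        P.real (Ev φ W (0 + u.length) (List.replicate n c)) := by
      rw [Ev_const hP, Ev_replicate]
      simp
    rw [h2]
    unfold pw
    rw [Ev_append, Ev_append]
    exact measureReal_mono (Set.inter_subset_right.trans Set.inter_subset_left)
  exact lt_of_lt_of_le (lt_of_le_of_ne measureReal_nonneg (Ne.symm huv)) h1

end Pool.Agent.KS6_99.FD
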