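import Mathlib
import Pool.Agent.KS6_99.FD.Words

/-!
The tube around the translates of a finite set of vertices with infinite orbits, and the finite
rank of the words read by a finitely dependent Markov random field.
-/

set_option autoImplicit false

namespace Pool.Agent.KS6_99.FD

open MeasureTheory ProbabilityTheory

variable {V : Type} {q : ℕ}

theorem zpow_cancel (φ : Equiv.Perm V) (m n : ℤ) (v : V) :
    (φ ^ m) ((φ ^ n) v) = (φ ^ (m + n)) v := by
  rw [zpow_add]
  rfl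

theorem Free.inj {φ : Equiv.Perm V} {v : V} (h : Free φ v) {m n : ℤ}
    (e : (φ ^ m) v = (φ ^ n) v) : m = n := by
  have h1 : (φ ^ (-n + m)) v = v := by
    rw [← zpow_cancel, e, zpow_cancel, neg_add_cancel, zpow_zero]
    rfl
  have h2 := h _ h1
  omega

theorem Aut.inv {G : SimpleGraph V} {φ : Equiv.Perm V} (h : Aut G φ) : Aut G φ⁻¹ := by
  intro u v
  have h1 := h (φ⁻¹ u) (φ⁻¹ v)
  simpa using h1.symm

theorem Aut.pow {G : SimpleGraph V} {φ : Equiv.Perm V} (h : Aut G φ) (n : ℕ) :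
    Aut G (φ ^ n) := by
  induction n with
  | zero => intro u v; simp
  | succ n ih =>
    intro u v
    rw [pow_succ]
    exact (ih (φ u) (φ v)).trans (h u v)

theorem Aut.zpow {G : SimpleGraph V} {φ : Equiv.Perm V} (h : Aut G φ) (n : ℤ) :
    Aut G (φ ^ n) := by
  obtain ⟨m, rfl | rfl⟩ := n.eq_nat_or_neg
  · rw [zpow_natCast]
    exact h.pow m
  · rw [zpow_neg, zpow_natCast]
    exact (h.pow m).inv

theorem edist_le_of_aut {G : SimpleGraph V} {φ : Equiv.Perm V} (h : Aut G φ) (u v : V) :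
    G.edist (φ u) (φ v) ≤ G.edist u v := by
  refine le_iInf fun w => ?_
  let f : G →g G := ⟨φ, fun {a b} hab => (h a b).2 hab⟩
  have h1 := (w.map f).edist_le
  rw [SimpleGraph.Walk.length_map] at h1
  exact h1

theorem edist_aut {G : SimpleGraph V} {φ : Equiv.Perm V} (h : Aut G φ) (u v : V) :
    G.edist (φ u) (φ v) = G.edist u v := by
  refine le_antisymm (edist_le_of_aut h u v) ?_
  have h1 := edist_le_of_aut h.inv (φ u) (φ v)
  simpa using h1

theorem ball_fin {G : SimpleGraph V} (hG : LocFin G) (k : ℕ) (w : V) :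
    {v | G.edist w v < k}.Finite := by
  induction k generalizing w with
  | zero => simp
  | succ k ih =>
    refine ((Set.finite_singleton w).union ((hG w).biUnion fun u _ => ih u)).subset ?_
    intro v hv
    have hv' : G.edist w v < ((k + 1 : ℕ) : ℕ∞) := hv
    obtain ⟨p, hp⟩ := SimpleGraph.exists_walk_of_edist_ne_top (ne_top_of_lt hv')
    cases p with
    | nil => left; rfl
    | cons h p' =>
      right
      rename_i u
      refine Set.mem_biUnion (x := u) h ?_
      rw [← hp, SimpleGraph.Walk.length_cons] at hv'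
      have h1 : p'.length < k := by
        have := Nat.cast_lt.1 hv'
        omega
      exact lt_of_le_of_lt p'.edist_le (Nat.cast_lt.2 h1)

theorem free_of_near {G : SimpleGraph V} (hG : LocFin G) {φ : Equiv.Perm V} (hA : Aut G φ)
    {k : ℕ} {w b : V} (hw : Free φ w) (hb : G.edist w b < k) : Free φ b := by
  intro n hn
  by_contra h0
  have h1 : ∀ m : ℤ, (φ ^ (n * m)) w ∈ {v | G.edist b v < k} := by
    intro m
    have h2 : (φ ^ (n * m)) b = b := by
      rw [zpow_mul]
      exact Equiv.Perm.zpow_apply_eq_self_of_apply_eq_self hn m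
    have h3 := edist_aut (hA.zpow (n * m)) b w
    rw [h2] at h3
    show G.edist b ((φ ^ (n * m)) w) < k
    rw [h3, SimpleGraph.edist_comm]
    exact hb
  have h4 : Function.Injective fun m : ℤ => (φ ^ (n * m)) w := by
    intro m m' e
    exact mul_left_cancel₀ h0 (hw.inj e)
  exact Set.infinite_of_injective_forall_mem h4 h1 (ball_fin hG k b)

theorem exists_gap {φ : Equiv.Perm V} {B C : Set V} (hB : B.Finite) (hf : ∀ b ∈ B, Free φ b)
    (hC : C.Finite) : ∃ K : ℕ, ∀ n : ℤ, (K : ℤ) < n → ∀ b ∈ B, (φ ^ n) b ∉ C := by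
  have h1 : {n : ℤ | ∃ b ∈ B, (φ ^ n) b ∈ C}.Finite := by
    refine (hB.biUnion (t := fun b => ⋃ c ∈ C, {n : ℤ | (φ ^ n) b = c}) fun b hb =>
      hC.biUnion fun c _ => Set.Subsingleton.finite ?_).subset ?_
    · intro m hm n hn
      exact (hf b hb).inj (Eq.trans (b := c) hm (Eq.symm hn))
    · rintro n ⟨b, hb, hc⟩
      simp only [Set.mem_iUnion]
      exact ⟨b, hb, _, hc, rfl⟩
  obtain ⟨a, ha⟩ := h1.bddAbove
  refine ⟨a.toNat, fun n hn b hb hc => ?_⟩
  have h2 : n ≤ a := ha ⟨b, hb, hc⟩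
  omega

theorem tr_fin (φ : Equiv.Perm V) {B : Set V} (hB : B.Finite) (a b : ℤ) :
    {v | ∃ t : ℤ, a ≤ t ∧ t ≤ b ∧ (φ ^ (-t)) v ∈ B}.Finite := by
  refine ((Set.finite_Icc a b).biUnion (t := fun t => (φ ^ t) '' B) fun t _ =>
    hB.image _).subset ?_
  rintro v ⟨t, h1, h2, h3⟩
  refine Set.mem_biUnion (x := t) ⟨h1, h2⟩ ⟨_, h3, ?_⟩
  rw [zpow_cancel, add_neg_cancel, zpow_zero]
  rfl

theorem factor [DecidableEq V] {G H : SimpleGraph V} (hH : LocFin H) {P : Measure (V → Fin q)}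
    [IsProbabilityMeasure P] {φ : Equiv.Perm V} (hAG : Aut G φ) (hAH : Aut H φ)
    (hP : Inv P φ) (hM : Markov H P) {k : ℕ}
    (hk : ∀ A B : Set V, (∀ a ∈ A, ∀ b ∈ B, (k : ℕ∞) ≤ G.edist a b) →
      Indep (sg q A) (sg q B) P) (W : Finset V) {B : Set V} (hB : B.Finite)
    (hWB : ∀ w ∈ W, w ∈ B) (hnear : ∀ w ∈ W, ∀ v, G.edist w v < k → v ∈ B) {K : ℕ}
    (hK1 : ∀ n : ℤ, (K : ℤ) < n → ∀ b ∈ B, (φ ^ n) b ∉ B)
    (hK2 : ∀ n : ℤ, (K : ℤ) < n → ∀ b ∈ B, ∀ c ∈ B, ¬ H.Adj ((φ ^ n) b) c)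
    (S : Finset V) (hS : ∀ v, v ∈ S ↔ ∃ t : ℤ, -(K : ℤ) ≤ t ∧ t ≤ 0 ∧ (φ ^ (-t)) v ∈ B)
    (M : ℕ) :
    ∃ (a : List (W → Fin q) → (S → Fin q) → ℝ) (b : (S → Fin q) → List (W → Fin q) → ℝ),
      (∀ u r, a u r ∈ Set.Icc (0 : ℝ) 1) ∧ (∀ r v, b r v ∈ Set.Icc (0 : ℝ) 1) ∧
      ∀ u v, v.length ≤ M → pw P φ W (u ++ v) = ∑ r, a u r * b r v := by
  classical
  -- the two separation properties of the tube
  have c1 : ∀ v (s t : ℤ), s ≤ 0 → 1 ≤ t → (φ ^ (-s)) v ∈ B → (φ ^ (-t)) v ∈ B → v ∈ S := by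
    intro v s t hs ht h1 h2
    rw [hS]
    refine ⟨s, ?_, hs, h1⟩
    by_contra hcon
    refine hK1 (t - s) (by omega) _ h2 ?_
    rw [zpow_cancel]
    have : t - s + -t = -s := by ring
    rw [this]
    exact h1
  have c2 : ∀ u v (s t : ℤ), H.Adj u v → s ≤ 0 → 1 ≤ t → (φ ^ (-s)) v ∈ B →
      (φ ^ (-t)) u ∈ B → v ∈ S := by
    intro u v s t huv hs ht h1 h2
    rw [hS]
    refine ⟨s, ?_, hs, h1⟩
    by_contra hcon
    refine hK2 (t - s) (by omega) _ h2 _ h1 ?_
    rw [zpow_cancel]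
    have : t - s + -t = -s := by ring
    rw [this]
    exact ((hAH.zpow (-s)) u v).2 huv
  -- the box
  have hAfin : {v | (∃ t : ℤ, 1 ≤ t ∧ t ≤ M ∧ (φ ^ (-t)) v ∈ B) ∧
      ∀ t : ℤ, t ≤ 0 → (φ ^ (-t)) v ∉ B}.Finite :=
    (tr_fin φ hB 1 M).subset fun v hv => hv.1
  set A : Finset V := hAfin.toFinset with hA
  have memA : ∀ v, v ∈ A ↔ (∃ t : ℤ, 1 ≤ t ∧ t ≤ M ∧ (φ ^ (-t)) v ∈ B) ∧
      ∀ t : ℤ, t ≤ 0 → (φ ^ (-t)) v ∉ B := by
    intro v
    rw [hA, Set.Finite.mem_toFinset]
    rfl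
  have hbd : (bd H (A : Set V)).Finite := by
    refine (A.finite_toSet.biUnion (t := fun u => H.neighborSet u) fun u _ => hH u).subset ?_
    rintro v ⟨_, u, hu, huv⟩
    exact Set.mem_biUnion hu huv
  have hSA : ∀ v ∈ (S : Set V), v ∉ A := by
    intro v hv hvA
    rw [memA] at hvA
    obtain ⟨t, _, ht, h⟩ := (hS v).1 hv
    exact hvA.2 t ht h
  -- the walls
  have hWafin : (bd H (A : Set V) \ (S : Set V)).Finite := hbd.subset Set.sdiff_subset
  set Wa : Finset V := hWafin.toFinset with hWa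
  have memWa : ∀ v, v ∈ Wa ↔ v ∈ bd H (A : Set V) ∧ v ∉ S := by
    intro v
    rw [hWa, Set.Finite.mem_toFinset]
    rfl
  have hfar : ∀ a ∈ {v | ∃ t : ℤ, t ≤ M ∧ ∃ w ∈ W, v = (φ ^ t) w}, ∀ b ∈ (Wa : Set V),
      (k : ℕ∞) ≤ G.edist a b := by
    rintro _ ⟨t, ht, w, hw, rfl⟩ v hv
    by_contra hcon
    rw [not_le] at hcon
    rw [Finset.mem_coe, memWa] at hv
    obtain ⟨⟨hvA, u, hu, huv⟩, hvS⟩ := hv
    rw [Finset.mem_coe] at hvA hu
    have h1 : (φ ^ (-t)) v ∈ B := by
      refine hnear w hw _ ?_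
      rw [← edist_aut (hAG.zpow t), zpow_cancel, add_neg_cancel, zpow_zero]
      exact hcon
    rcases le_or_gt t 0 with h2 | h2
    · obtain ⟨⟨t', h3, _, h4⟩, _⟩ := (memA u).1 hu
      exact hvS (c2 u v t t' huv h2 h3 h1 h4)
    · rw [memA] at hvA
      push Not at hvA
      obtain ⟨s, hs, h3⟩ := hvA ⟨t, by omega, ht, h1⟩
      exact hvS (c1 v s t hs (by omega) h3 h1)
  obtain ⟨β, hβ⟩ := exists_pat (P := P) Wa
  set D : Set (V → Fin q) := cyl (Wa : Set V) β with hD
  set f : (V → Fin q) → (S → Fin q) := fun x v => x v with hf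
  have hfm : Measurable f := measurable_pi_lambda _ fun v => measurable_pi_apply _
  set C : (S → Fin q) → Set (V → Fin q) := fun r => f ⁻¹' {r} with hC
  have hCD : ∀ r, cyl (bd H (A : Set V) ∪ (S : Set V))
      (fun v => if h : v ∈ S then r ⟨v, h⟩ else β v) = C r ∩ D := by
    intro r
    ext x
    constructor
    · intro hx
      constructor
      · funext v
        have := hx v (Or.inr v.2)
        simpa using this
      · intro v hv
        obtain ⟨h1, h2⟩ := (memWa v).1 hv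
        have := hx v (Or.inl h1)
        simpa [h2] using this
    · rintro ⟨h1, h2⟩ v hv
      by_cases h : v ∈ S
      · have h3 := congrFun h1 ⟨v, h⟩
        simpa [h] using h3
      · have h3 : v ∈ bd H (A : Set V) := hv.resolve_right h
        simpa [h] using h2 v ((memWa v).2 ⟨h3, h⟩)
  refine ⟨fun u r => P.real (Ev φ W (1 - u.length) u ∩ (C r ∩ D)) / P.real D,
    fun r v => P.real (Ev φ W 1 v ∩ (C r ∩ D)) / P.real (C r ∩ D), ?_, ?_, ?_⟩
  · intro u r
    refine ⟨div_nonneg measureReal_nonneg measureReal_nonneg, div_le_one_of_le₀ ?_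
      measureReal_nonneg⟩
    exact measureReal_mono (Set.inter_subset_right.trans Set.inter_subset_right)
  · intro r v
    refine ⟨div_nonneg measureReal_nonneg measureReal_nonneg, div_le_one_of_le₀ ?_
      measureReal_nonneg⟩
    exact measureReal_mono Set.inter_subset_right
  · intro u v huv
    set U : Set (V → Fin q) := Ev φ W (1 - u.length) u with hU
    set X : Set (V → Fin q) := Ev φ W 1 v with hX
    have h1 : Ev φ W (1 - u.length) (u ++ v) = U ∩ X := by
      rw [Ev_append, sub_add_cancel]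
    have h2 : pw P φ W (u ++ v) = P.real (U ∩ X) := by
      rw [← h1, Ev_const hP]
      rfl
    have hvM : (v.length : ℤ) ≤ M := by exact_mod_cast huv
    -- independence from the walls
    have h3 : P.real ((U ∩ X) ∩ D) = P.real (U ∩ X) * P.real D := by
      have g1 := hk _ _ hfar
      have g2 := (Indep_iff _ _ _).1 g1 (U ∩ X) D ?_ (meas_cyl (le_refl _) Wa.finite_toSet β)
      · unfold Measure.real
        rw [g2, ENNReal.toReal_mul]
      · rw [← h1]
        apply Ev_meas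
        intro t _ ht w hw
        refine ⟨t, ?_, w, hw, rfl⟩
        rw [List.length_append] at ht
        push_cast at ht
        omega
    -- the Markov property
    have h4 : ∀ r, P.real (C r ∩ ((U ∩ X) ∩ D)) =
        P.real D * ((P.real (U ∩ (C r ∩ D)) / P.real D) *
          (P.real (X ∩ (C r ∩ D)) / P.real (C r ∩ D))) := by
      intro r
      have g1 := markov_event hM A (S := (S : Set V)) S.finite_toSet hSA hbd (E := X) (F := U)
        ?_ ?_ (fun v => if h : v ∈ S then r ⟨v, h⟩ else β v)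
      · rw [hCD] at g1
        have g2 : C r ∩ ((U ∩ X) ∩ D) = X ∩ (U ∩ (C r ∩ D)) := by
          ext x
          simp only [Set.mem_inter_iff]
          tauto
        rw [g2]
        by_cases g3 : P.real (C r ∩ D) = 0
        · have g4 : P.real (X ∩ (U ∩ (C r ∩ D))) = 0 := by
            apply le_antisymm _ measureReal_nonneg
            rw [← g3]
            exact measureReal_mono (Set.inter_subset_right.trans Set.inter_subset_right)
          rw [g4, g3, div_zero, mul_zero, mul_zero]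
        · field_simp
          rw [g1]
          ring
      · apply Ev_meas
        intro t ht1 ht2 w hw
        have hwt : (φ ^ (-t)) ((φ ^ t) w) ∈ B := by
          rw [zpow_cancel, neg_add_cancel, zpow_zero]
          exact hWB w hw
        by_cases g : ∃ s : ℤ, s ≤ 0 ∧ (φ ^ (-s)) ((φ ^ t) w) ∈ B
        · obtain ⟨s, hs, g⟩ := g
          exact Or.inr (c1 _ s t hs ht1 g hwt)
        · push Not at g
          left
          rw [Finset.mem_coe, memA]
          exact ⟨⟨t, ht1, by omega, hwt⟩, g⟩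
      · apply Ev_meas
        intro t ht1 ht2 w hw hcon
        rw [Finset.mem_coe, memA] at hcon
        refine hcon.2 t (by omega) ?_
        rw [zpow_cancel, neg_add_cancel, zpow_zero]
        exact hWB w hw
    have h5 : P.real (U ∩ X) * P.real D = P.real D * ∑ r,
        (P.real (U ∩ (C r ∩ D)) / P.real D) * (P.real (X ∩ (C r ∩ D)) / P.real (C r ∩ D)) := by
      rw [← h3, ← sum_fun (P := P) f hfm, Finset.mul_sum]
      exact Finset.sum_congr rfl fun r _ => h4 r
    rw [h2]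
    have h6 : P.real D ≠ 0 := ne_of_gt hβ
    rw [mul_comm] at h5
    exact mul_left_cancel₀ h6 h5

/-- A finitely dependent Markov random field which is invariant under the automorphism `φ` repeats
some pattern on arbitrarily many translates of a finite set of vertices with infinite orbits. -/
theorem pattern {G H : SimpleGraph V} (hG : LocFin G) (hH : LocFin H) {P : Measure (V → Fin q)}
    [IsProbabilityMeasure P] {φ : Equiv.Perm V} (hAG : Aut G φ) (hAH : Aut H φ)
    (hP : Inv P φ) (hF : FinDep G P) (hM : Markov H P) (W : Finset V)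
    (hW : ∀ w ∈ W, Free φ w) :
    ∃ c : W → Fin q, ∀ n : ℕ, 0 < P.real {x | ∀ t : ℕ, t < n → rd φ W t x = c} := by
  classical
  obtain ⟨k, hk⟩ := hF
  set B : Set V := (W : Set V) ∪ ⋃ w ∈ W, {v | G.edist w v < k} with hBdef
  have hB : B.Finite := W.finite_toSet.union (W.finite_toSet.biUnion fun w _ => ball_fin hG k w)
  have hWB : ∀ w ∈ W, w ∈ B := fun w hw => Or.inl hw
  have hnear : ∀ w ∈ W, ∀ v, G.edist w v < k → v ∈ B :=
    fun w hw v hv => Or.inr (Set.mem_biUnion (x := w) hw hv)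
  have hfree : ∀ b ∈ B, Free φ b := by
    rintro b (hb | hb)
    · exact hW b hb
    · simp only [Set.mem_iUnion] at hb
      obtain ⟨w, hw, hb⟩ := hb
      exact free_of_near hG hAG (hW w hw) hb
  obtain ⟨K, hK⟩ := exists_gap hB hfree
    (hB.union (hB.biUnion (t := fun b => H.neighborSet b) fun b _ => hH b))
  have hK1 : ∀ n : ℤ, (K : ℤ) < n → ∀ b ∈ B, (φ ^ n) b ∉ B :=
    fun n hn b hb h => hK n hn b hb (Or.inl h)
  have hK2 : ∀ n : ℤ, (K : ℤ) < n → ∀ b ∈ B, ∀ c ∈ B, ¬ H.Adj ((φ ^ n) b) c :=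
    fun n hn b hb c hc h => hK n hn b hb (Or.inr (Set.mem_biUnion hc h.symm))
  have hSfin := tr_fin φ hB (-(K : ℤ)) 0
  have hfin : FiniteDimensional ℝ (VS (pw P φ W)) :=
    fin_dim (R := hSfin.toFinset → Fin q) _ fun M =>
      factor hH hAG hAH hP hM hk W hB hWB hnear hK1 hK2 hSfin.toFinset
        (fun v => by rw [Set.Finite.mem_toFinset]; rfl) M
  refine words hP W (m := K + 1) (Nat.succ_ne_zero K) (fun u v => ?_) hfin
  have h1 := hk {v | ∃ t : ℤ, t < u.length ∧ ∃ w ∈ W, v = (φ ^ t) w}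
    {v | ∃ t : ℤ, (u.length : ℤ) + ((K + 1 : ℕ) : ℤ) ≤ t ∧ ∃ w ∈ W, v = (φ ^ t) w} ?_
  · have h2 := (Indep_iff _ _ _).1 h1 (Ev φ W 0 u)
      (Ev φ W (u.length + ((K + 1 : ℕ) : ℤ)) v) ?_ ?_
    · unfold pw
      rw [← Ev_const hP W (u.length + ((K + 1 : ℕ) : ℤ)) v]
      unfold Measure.real
      rw [h2, ENNReal.toReal_mul]
    · exact Ev_meas φ W u 0 fun t _ h w hw => ⟨t, by simpa using h, w, hw, rfl⟩
    · exact Ev_meas φ W v _ fun t h _ w hw => ⟨t, h, w, hw, rfl⟩
  · rintro _ ⟨s, hs, w, hw, rfl⟩ _ ⟨t, ht, w', hw', rfl⟩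
    by_contra hcon
    rw [not_le, ← edist_aut (hAG.zpow (-s)), zpow_cancel, zpow_cancel, neg_add_cancel,
      zpow_zero] at hcon
    refine hK1 (-s + t) (by push_cast at ht; omega) w' (hWB w' hw') ?_
    exact hnear w hw _ hcon

end Pool.Agent.KS6_99.FD
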