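import Mathlib
import Pool.Agent.KS6_99.FD.Tube

/-!
Existence of an invariant configuration in the support.
-/

set_option autoImplicit false

namespace Pool.Agent.KS6_99.FD

open MeasureTheory ProbabilityTheory

variable {V : Type} {q : ℕ}

theorem const_orbit {P : Measure (V → Fin q)} {φ : Equiv.Perm V} {W : Finset V}
    {c : W → Fin q} (hc : ∀ n : ℕ, 0 < P.real {x | ∀ t : ℕ, t < n → rd φ W t x = c})
    (w w' : W) (n : ℤ) (h : (φ ^ n) (w : V) = w') : c w = c w' := by
  have key : ∀ (w w' : W) (n : ℕ), (φ ^ (n : ℤ)) (w : V) = w' → c w = c w' := by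
    intro w w' n h
    have h1 : ({x : V → Fin q | ∀ t : ℕ, t < n + 1 → rd φ W t x = c}).Nonempty := by
      by_contra hcon
      rw [Set.not_nonempty_iff_eq_empty] at hcon
      have h2 := hc (n + 1)
      rw [hcon, measureReal_empty] at h2
      exact lt_irrefl _ h2
    obtain ⟨x, hx⟩ := h1
    have h3 := congrFun (hx n (Nat.lt_succ_self n)) w
    have h4 := congrFun (hx 0 (Nat.succ_pos n)) w'
    have h3' : x ((φ ^ (n : ℤ)) (w : V)) = c w := h3
    have h4' : x ((φ ^ ((0 : ℕ) : ℤ)) (w' : V)) = c w' := h4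
    rw [h] at h3'
    rw [Nat.cast_zero, zpow_zero] at h4'
    exact h3'.symm.trans h4'
  obtain ⟨m, rfl | rfl⟩ := n.eq_nat_or_neg
  · exact key w w' m h
  · refine (key w' w m ?_).symm
    rw [← h, zpow_cancel, add_neg_cancel, zpow_zero]
    rfl

theorem invariant_config {G H : SimpleGraph V} (hG : LocFin G) (hH : LocFin H)
    {P : Measure (V → Fin q)} [IsProbabilityMeasure P] {φ : Equiv.Perm V} (hAG : Aut G φ)
    (hAH : Aut H φ) (hP : Inv P φ) (hF : FinDep G P) (hM : Markov H P) :
    ∃ p : V → Fin q, (∀ v, p (φ v) = p v) ∧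
      ∀ W : Finset V, (∀ w ∈ W, Free φ w) → 0 < P {x | ∀ w ∈ W, x w = p w} := by
  classical
  set Z : {W : Finset V // ∀ w ∈ W, Free φ w} → Set (V → Fin q) := fun W =>
    {p | (∀ v, p (φ v) = p v) ∧ 0 < P {x | ∀ w ∈ W.1, x w = p w}} with hZ
  have hclosed : ∀ W, IsClosed (Z W) := by
    intro W
    have h1 : Z W = (⋂ v, {p : V → Fin q | p (φ v) = p v}) ∩
        (fun (p : V → Fin q) (v : W.1) => p v) ⁻¹'
          {r | 0 < P {x : V → Fin q | ∀ w : W.1, x w = r w}} := by
      ext p
      have h2 : {x : V → Fin q | ∀ w ∈ W.1, x w = p w} = {x | ∀ w : W.1, x w = p w} := by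
        ext x
        exact ⟨fun h w => h w w.2, fun h w hw => h ⟨w, hw⟩⟩
      simp only [hZ, Set.mem_ofPred_eq, Set.mem_inter_iff, Set.mem_iInter, Set.mem_preimage, h2]
    rw [h1]
    refine IsClosed.inter (isClosed_iInter fun v =>
      isClosed_eq (continuous_apply _) (continuous_apply _)) ?_
    exact (isClosed_discrete _).preimage (continuous_pi fun v => continuous_apply _)
  have hne : ∀ W, (Z W).Nonempty := by
    intro W
    obtain ⟨c, hc⟩ := pattern hG hH hAG hAH hP hF hM W.1 W.2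
    rcases isEmpty_or_nonempty V with hV | hV
    · refine ⟨fun v => hV.elim v, fun v => hV.elim v, ?_⟩
      have h1 : {x : V → Fin q | ∀ w ∈ W.1, x w = (fun v => hV.elim v : V → Fin q) w} =
          Set.univ := by
        ext x
        simp only [Set.mem_ofPred_eq, Set.mem_univ, iff_true]
        exact fun w => hV.elim w
      rw [h1, measure_univ]
      exact zero_lt_one
    · obtain ⟨v0⟩ := hV
      obtain ⟨x0⟩ : Nonempty (V → Fin q) := P.nonempty_of_neZero
      set p : V → Fin q := fun v =>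
        if h : ∃ w : W.1, ∃ n : ℤ, (φ ^ n) (w : V) = v then c h.choose else x0 v0 with hp
      have hpw : ∀ (w : W.1) (n : ℤ) (v : V), (φ ^ n) (w : V) = v → p v = c w := by
        intro w n v h
        have hex : ∃ w : W.1, ∃ n : ℤ, (φ ^ n) (w : V) = v := ⟨w, n, h⟩
        have h1 : p v = c hex.choose := dif_pos hex
        rw [h1]
        obtain ⟨m, hm⟩ := hex.choose_spec
        refine const_orbit hc _ _ (-n + m) ?_
        rw [← zpow_cancel, hm, ← h, zpow_cancel, neg_add_cancel, zpow_zero]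
        rfl
      refine ⟨p, fun v => ?_, ?_⟩
      · by_cases hex : ∃ w : W.1, ∃ n : ℤ, (φ ^ n) (w : V) = v
        · obtain ⟨w, n, h⟩ := hex
          rw [hpw w n v h]
          refine hpw w (1 + n) (φ v) ?_
          rw [← zpow_cancel, h, zpow_one]
        · have h1 : p v = x0 v0 := dif_neg hex
          have h2 : p (φ v) = x0 v0 := by
            refine dif_neg ?_
            rintro ⟨w, n, h⟩
            refine hex ⟨w, -1 + n, ?_⟩
            rw [← zpow_cancel, h, zpow_neg_one]
            simp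
          rw [h1, h2]
      · have h1 : 0 < P {x | ∀ t : ℕ, t < 1 → rd φ W.1 t x = c} :=
          (ENNReal.toReal_pos_iff.1 (hc 1)).1
        refine lt_of_lt_of_le h1 (measure_mono ?_)
        intro x hx w hw
        have h2 := congrFun (hx 0 Nat.one_pos) ⟨w, hw⟩
        have h3 : x ((φ ^ ((0 : ℕ) : ℤ)) w) = c ⟨w, hw⟩ := h2
        rw [Nat.cast_zero, zpow_zero] at h3
        rw [hpw ⟨w, hw⟩ 0 w (by simp)]
        exact h3
  have hdir : Directed (· ⊇ ·) Z := by
    intro W W'
    refine ⟨⟨W.1 ∪ W'.1, fun w hw => ?_⟩, ?_, ?_⟩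
    · rcases Finset.mem_union.1 hw with h | h
      · exact W.2 w h
      · exact W'.2 w h
    · rintro p ⟨h1, h2⟩
      refine ⟨h1, lt_of_lt_of_le h2 (measure_mono fun x hx w hw => ?_)⟩
      exact hx w (Finset.mem_union_left _ hw)
    · rintro p ⟨h1, h2⟩
      refine ⟨h1, lt_of_lt_of_le h2 (measure_mono fun x hx w hw => ?_)⟩
      exact hx w (Finset.mem_union_right _ hw)
  have : Nonempty {W : Finset V // ∀ w ∈ W, Free φ w} := ⟨⟨∅, fun w hw => by simp at hw⟩⟩
  obtain ⟨p, hp⟩ := IsCompact.nonempty_iInter_of_directed_nonempty_isCompact_isClosed Z hdir hne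
    (fun W => (hclosed W).isCompact) hclosed
  rw [Set.mem_iInter] at hp
  exact ⟨p, (hp ⟨∅, fun w hw => by simp at hw⟩).1, fun W hW => (hp ⟨W, hW⟩).2⟩

end Pool.Agent.KS6_99.FD
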